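import Pool.Agent.H84.SM.Targets2
import Pool.Agent.H85.OD.CHI

/-!
# MP_70ba79_ag, board `smc_modules`, row CHJ: the automorphisms `u ^ r ↦ χ(r) u ^ r`

Construction of helper85 (row CHI of `ode_modules`), with the coefficients exported.
-/

set_option autoImplicit false

namespace Pool.Agent.H6.SM

open Pool.Agent.H84.SM Pool.Agent.H92.OD Pool.Agent.H85.OD

/-- the form of `T_CHJ` with rational exponents `r` in the third clause (in `T_CHJ` the variable
`r` of this clause is elaborated as an integer) -/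
def T_CHJQ : Prop := ∀ (k : Type) [Field k] [IsAlgClosed k] [CharZero k] (N : ℕ) (s : ℚ), 0 < N →
  (¬∃ m : ℤ, s * N = m) → ∃ (σ : HS k →+* HS k) (χ : ℚ → k), (∀ y r, cf (σ y) r = χ r * cf y r) ∧
  (∀ r, χ r ≠ 0) ∧ (∀ r : ℚ, (∃ m : ℤ, r * N = m) → χ r = 1) ∧ χ s ≠ 1

theorem pf_CHJQ : T_CHJQ := by
  intro k _ _ _ N s hN hs
  obtain ⟨χ, hχ, h0, h1, h2⟩ := exists_chi (k := k) N s hN hs
  have hsg : ∀ (r : ℚ) (c : k), χ r = 1 → tw χ (sg r c) = sg r c := by
    intro r c hr
    refine hs_ext fun t => ?_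
    rw [cf_tw, cf_sg]
    split_ifs with h
    · rw [h, hr, one_mul]
    · rw [mul_zero]
  refine ⟨{ toFun := tw χ
            map_one' := by
              rw [← sg_zero_one]
              exact hsg 0 1 h0
            map_mul' := tw_mul χ hχ
            map_zero' := hs_ext fun r => by rw [cf_tw, cf_zero, mul_zero]
            map_add' := fun x y => hs_ext fun r => by
              rw [cf_tw, cf_add, cf_add, cf_tw, cf_tw, mul_add] }, χ, ?_, ?_, ?_, h2⟩
  · intro y r
    exact cf_tw χ y r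
  · intro r hr
    have h3 := hχ r (-r)
    rw [add_neg_cancel, h0, hr, zero_mul] at h3
    exact one_ne_zero h3
  · rintro r ⟨m, hm⟩
    exact h1 r m hm

theorem pf_CHJ : T_CHJ := by
  intro k _ _ _ N s hN hs
  obtain ⟨σ, χ, h1, h2, h3, h4⟩ := pf_CHJQ k N s hN hs
  refine ⟨σ, χ, h1, h2, ?_, h4⟩
  rintro r ⟨m, hm⟩
  exact h3 r ⟨m, by exact_mod_cast hm⟩

end Pool.Agent.H6.SM
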