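import Pool.Agent.H84.SM.Targets

/-!
# MP_70ba79_ag, board `smc_modules`, row S1: the result of part 1
-/

set_option autoImplicit false

namespace Pool.Agent.H6.SM

open MvPolynomial SC Pool.Agent.H27.LV Pool.Agent.H84.SM

/-- bound for the degree, the form which is stable under enlarging `B` -/
def Bd {k K : Type} [Field k] [Field K] [Algebra k K] (B : ℕ) (D : Derivation k K K)
    (x : Fin 3 → K) (S : Finset (DV k K)) : Prop :=
  0 ≤ canDeg D + (S.card : ℤ) ∧ ((deg k x : ℕ) : ℤ) ≤ B * (canDeg D + S.card)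

theorem Bd.mono {k K : Type} [Field k] [Field K] [Algebra k K] {B B' : ℕ} (hB : B ≤ B')
    {D : Derivation k K K} {x : Fin 3 → K} {S : Finset (DV k K)} (h : Bd B D x S) :
    Bd B' D x S := by
  refine ⟨h.1, h.2.trans ?_⟩
  have : (B : ℤ) ≤ B' := by exact_mod_cast hB
  exact mul_le_mul_of_nonneg_right this h.1

/-- the conclusion for the curves on which `P` vanishes -/
def Ok {k : Type} [Field k] (G : MvPolynomial (Fin 3) k) (d : ℕ) (P : R2 k) : Prop :=
  ∃ (B : ℕ) (cs : Set (A2 k)) (ps : Set (ℕ × MvPolynomial (Fin 3) k × A2 k)), cs.Finite ∧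
  ps.Finite ∧ (∀ c ∈ cs, c ≠ 0 ∧ dv c = 0 ∧ ∃ e i, BH e i c) ∧
  (∀ p ∈ ps, p.1 + 4 ≤ d ∧ Conn G p.1 p.2.1 p.2.2) ∧
  ∀ (K : Type) [Field K] [Algebra k K] [Algebra.EssFiniteType k K], Algebra.trdeg k K = 1 →
  ∀ (D : Derivation k K K), D ≠ 0 → ∀ (x : Fin 3 → K) (S : Finset (DV k K)), Crv G d x S →
  evc D x P = 0 → Bd B D x S ∨
  (∃ c ∈ cs, aeval (Sum.elim x fun i => D (x i)) c = 0) ∨
  ∃ p ∈ ps, aeval x p.2.1 * dt x (fun i => D (x i)) (fun i => D (D (x i))) +
    aeval (Sum.elim x fun i => D (x i)) p.2.2 = 0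

theorem Ok.one {k : Type} [Field k] (G : MvPolynomial (Fin 3) k) (d : ℕ) : Ok G d 1 := by
  refine ⟨0, ∅, ∅, Set.finite_empty, Set.finite_empty, by simp, by simp, ?_⟩
  intro K _ _ _ _ D _ x S _ h
  rw [map_one] at h
  exact absurd h one_ne_zero

theorem Ok.mul {k : Type} [Field k] {G : MvPolynomial (Fin 3) k} {d : ℕ} {P Q : R2 k}
    (hP : Ok G d P) (hQ : Ok G d Q) : Ok G d (P * Q) := by
  obtain ⟨B, cs, ps, h1, h2, h3, h4, h5⟩ := hP
  obtain ⟨B', cs', ps', h1', h2', h3', h4', h5'⟩ := hQ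
  refine ⟨max B B', cs ∪ cs', ps ∪ ps', h1.union h1', h2.union h2', ?_, ?_, ?_⟩
  · rintro c (hc | hc)
    · exact h3 c hc
    · exact h3' c hc
  · rintro c (hc | hc)
    · exact h4 c hc
    · exact h4' c hc
  · intro K _ _ _ htr D hD x S hx h
    rw [map_mul] at h
    rcases mul_eq_zero.mp h with h | h
    · rcases h5 K htr D hD x S hx h with h | ⟨c, hc, h⟩ | ⟨p, hp, h⟩
      · exact Or.inl (h.mono (le_max_left _ _))
      · exact Or.inr (Or.inl ⟨c, Or.inl hc, h⟩)
      · exact Or.inr (Or.inr ⟨p, Or.inl hp, h⟩)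
    · rcases h5' K htr D hD x S hx h with h | ⟨c, hc, h⟩ | ⟨p, hp, h⟩
      · exact Or.inl (h.mono (le_max_right _ _))
      · exact Or.inr (Or.inl ⟨c, Or.inr hc, h⟩)
      · exact Or.inr (Or.inr ⟨p, Or.inr hp, h⟩)

theorem Ok.prod {k : Type} [Field k] {G : MvPolynomial (Fin 3) k} {d : ℕ}
    (s : Multiset (R2 k)) (h : ∀ P ∈ s, Ok G d P) : Ok G d s.prod := by
  induction s using Multiset.induction_on with
  | empty => rw [Multiset.prod_zero]; exact Ok.one G d
  | cons a s ih =>
    rw [Multiset.prod_cons]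
    exact (h a (Multiset.mem_cons_self a s)).mul
      (ih fun P hP => h P (Multiset.mem_cons_of_mem hP))

/-- a homogeneous element of positive degree is not a unit in the chart -/
theorem gp_not_isUnit {k : Type} [Field k] {G : MvPolynomial (Fin 3) k} {d : ℕ} (hd : 1 ≤ d)
    (hG : G.IsHomogeneous d) : ¬ IsUnit (gp G) := by
  intro h
  rw [gp, Polynomial.isUnit_C] at h
  have h2 := h.map (aeval (R := k) (fun _ : Fin 3 ⊕ Fin 2 => (0 : k)))
  have h3 : (aeval (R := k) (fun _ : Fin 3 ⊕ Fin 2 => (0 : k))) (aeval (xb (k := k)) G) = 0 := by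
    have h4 : (aeval (R := k) (fun _ : Fin 3 ⊕ Fin 2 => (0 : k))) (aeval (xb (k := k)) G) =
        aeval (R := k) (fun _ : Fin 3 => (0 : k)) G := by
      rw [← AlgHom.comp_apply, comp_aeval]
      congr 2
      funext i
      simp [xb]
    rw [h4]
    have h5 : aeval (R := k) (fun _ : Fin 3 => (0 : k)) G = constantCoeff G := by
      rw [show (fun _ : Fin 3 => (0 : k)) = 0 from rfl, aeval_zero]
      rfl
    rw [h5]
    rw [constantCoeff_eq]
    by_contra hne
    have := hG hne
    simp at this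
    omega
  rw [h3] at h2
  exact not_isUnit_zero h2

theorem bd_of_sec (hSCT : T_SCT) (hEUB : T_EUB) {k : Type} [Field k] [IsAlgClosed k] [CharZero k]
    (G : MvPolynomial (Fin 3) k) (d : ℕ) (hd : 2 ≤ d) (hs : Smooth G d) (hi : Irreducible G)
    (n t M : ℕ) (N : R2 k) (ht : 1 ≤ t) (hN : IsSec G d n (-(t : ℤ)) M N)
    (K : Type) [Field K] [Algebra k K] [Algebra.EssFiniteType k K] (htr : Algebra.trdeg k K = 1)
    (D : Derivation k K K) (hD : D ≠ 0) (x : Fin 3 → K) (S : Finset (DV k K))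
    (hx : Crv G d x S) (hev : evc D x N ≠ 0) : Bd n D x S := by
  have h1 := hSCT k G d hd hs hi K htr D hD x S hx n t M N hN hev
  have hN0 : N ≠ 0 := by
    rintro rfl
    exact hev (map_zero _)
  have hn : 1 ≤ n := by
    by_contra hn
    have hn0 : n = 0 := by omega
    subst hn0
    obtain ⟨h2, h3⟩ := hEUB k G d hd hs hi 0 (-(t : ℤ))
    have h4 : ub d 0 (-(t : ℤ)) = 0 := by
      unfold ub
      simp only [Nat.zero_div, zero_add, Finset.range_one, Finset.sum_singleton, Nat.cast_zero,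
        mul_zero, add_zero, sub_zero]
      unfold bdim
      rw [if_pos]
      omega
    have h5 : Module.finrank k (E G d 0 (-(t : ℤ))) = 0 := by omega
    have h6 : E G d 0 (-(t : ℤ)) = ⊥ := Submodule.finrank_eq_zero.mp h5
    have h7 : sec G M N ∈ E G d 0 (-(t : ℤ)) := Submodule.subset_span ⟨M, N, hN, rfl⟩
    rw [h6, Submodule.mem_bot] at h7
    unfold sec at h7
    have hG0 : gF G ≠ 0 := by
      unfold gF
      intro h8
      have h9 : gA G = 0 := (IsFractionRing.injective (A2 k) (F2 k)) (by rw [h8, map_zero])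
      unfold gA at h9
      have h10 : Function.Injective (aeval (R := k) (xa (k := k))) := by
        have : (aeval (R := k) (xa (k := k))) = rename (R := k) (Sum.inl : Fin 3 → Fin 3 ⊕ Fin 3) :=
          by
            apply algHom_ext
            intro i
            simp [xa]
        rw [this]
        exact rename_injective _ Sum.inl_injective
      exact hi.ne_zero (h10 (by rw [h9, map_zero]))
    rcases mul_eq_zero.mp h7 with h8 | h8
    · rw [Polynomial.C_eq_zero] at h8
      exact (inv_ne_zero (pow_ne_zero M hG0)) h8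
    · exact hN0 ((Polynomial.map_injective _ (IsFractionRing.injective (A2 k) (F2 k)))
        (by rw [h8, Polynomial.map_zero]))
  have hdeg : (0 : ℤ) ≤ (deg k x : ℕ) := Int.natCast_nonneg _
  have ht' : (1 : ℤ) ≤ t := by exact_mod_cast ht
  have hn' : (1 : ℤ) ≤ n := by exact_mod_cast hn
  have h0 : 0 ≤ canDeg D + (S.card : ℤ) := by
    by_contra hneg
    push Not at hneg
    nlinarith
  refine ⟨h0, le_trans ?_ h1⟩
  nlinarith

theorem ok_of_irreducible (hSCT : T_SCT) (hSEL : T_SEL) (hELI : T_ELI) (hCON : T_CON)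
    (hPSJ : T_PSJ) (hEUB : T_EUB) {k : Type} [Field k] [IsAlgClosed k] [CharZero k]
    (G : MvPolynomial (Fin 3) k) (d : ℕ) (hd : 50 ≤ d) (hs : Smooth G d) (hi : Irreducible G)
    (P : R2 k) (hP : Irreducible P) (hinv : Inv P) (e m : ℕ) (hb : BHN e m P) : Ok G d P := by
  by_cases hdeg : P.natDegree = 0
  · -- no `w`
    have hC : P = Polynomial.C (P.coeff 0) := Polynomial.eq_C_of_natDegree_eq_zero hdeg
    have hc0 : P.coeff 0 ≠ 0 := by
      intro h
      rw [h, map_zero] at hC
      exact hP.ne_zero hC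
    refine ⟨0, {P.coeff 0}, ∅, Set.finite_singleton _, Set.finite_empty, ?_, by simp, ?_⟩
    · rintro c hc
      rw [Set.mem_singleton_iff] at hc
      subst hc
      exact ⟨hc0, hinv 0, e, m, (hb 0).1 (by omega)⟩
    · intro K _ _ _ htr D hD x S hx h
      refine Or.inr (Or.inl ⟨P.coeff 0, Set.mem_singleton _, ?_⟩)
      rw [hC] at h
      unfold evc ev at h
      rw [Polynomial.coe_eval₂RingHom, Polynomial.eval₂_C] at h
      exact h
  · have hdeg1 : 1 ≤ P.natDegree := Nat.one_le_iff_ne_zero.mpr hdeg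
    have hpsi : Psi G d 0 P ≠ 0 := fun h => hP.ne_zero (hPSJ k G d (by omega) hs 0 P hinv h)
    obtain ⟨M', a, hna, ha⟩ := WfDvdMonoid.max_power_factor' hpsi
      (gp_not_isUnit (by omega) hs.1)
    have hgp : gp G ≠ 0 := by
      intro h
      rcases Nat.eq_zero_or_pos M' with hM | hM
      · subst hM
        rw [h] at hna
        rw [pow_zero, one_mul] at ha
        -- the multiplicity is meaningless: use injectivity
        unfold gp at h
        rw [Polynomial.C_eq_zero] at h
        have h10 : Function.Injective (aeval (R := k) (xb (k := k))) := by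
          have : (aeval (R := k) (xb (k := k))) =
              rename (R := k) (Sum.inl : Fin 3 → Fin 3 ⊕ Fin 2) := by
            apply algHom_ext
            intro i
            simp [xb]
          rw [this]
          exact rename_injective _ Sum.inl_injective
        exact hi.ne_zero (h10 (by rw [h, map_zero]))
      · rw [ha, h, zero_pow (by omega), zero_mul] at hpsi
        exact hpsi rfl
    have hdvd : gp G ^ M' ∣ Psi G d 0 P := ⟨a, ha⟩
    have hndvd : ¬ gp G ^ (M' + 1) ∣ Psi G d 0 P := by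
      rintro ⟨b, hb'⟩
      rw [hb', pow_succ, mul_assoc] at ha
      exact hna ⟨b, (mul_left_cancel₀ (pow_ne_zero M' hgp) ha).symm⟩
    by_cases hcon : m = 3 ∧ (e : ℤ) + m < d * M'
    · obtain ⟨hm, hlt⟩ := hcon
      subst hm
      obtain ⟨α, A, b, hα, hconn, hA⟩ := hCON k G d (by omega) hs hi e M' P hP hdeg1 hinv hb hdvd
        (by exact_mod_cast hlt)
      refine ⟨0, ∅, {(α, A, b)}, Set.finite_empty, Set.finite_singleton _, by simp, ?_, ?_⟩
      · rintro p hp
        rw [Set.mem_singleton_iff] at hp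
        subst hp
        exact ⟨hα, hconn⟩
      · intro K _ _ _ htr D hD x S hx h
        exact Or.inr (Or.inr ⟨_, Set.mem_singleton _, hA K D x hx.ne h⟩)
    · have hm3 : m = 3 → (d : ℤ) * M' ≤ e + m := by
        intro hm
        by_contra hlt
        push Not at hlt
        exact hcon ⟨hm, hlt⟩
      obtain ⟨n, t, M, N, ht, hN, hPN⟩ := hSEL k G d hd hs hi e m M' P hP hdeg1 hinv hb hndvd hdvd
        hm3
      obtain ⟨e', he', hbN⟩ := hN.2.1
      obtain ⟨c, hc0, hcd, hcb, hc⟩ := hELI k e m e' n P N hP hdeg1 hinv hb hN.1 hbN hPN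
      refine ⟨n, {c}, ∅, Set.finite_singleton _, Set.finite_empty, ?_, by simp, ?_⟩
      · rintro c' hc'
        rw [Set.mem_singleton_iff] at hc'
        subst hc'
        exact ⟨hc0, hcd, hcb⟩
      · intro K _ _ _ htr D hD x S hx h
        by_cases hev : evc D x N = 0
        · exact Or.inr (Or.inl ⟨c, Set.mem_singleton _, hc K D x h hev⟩)
        · exact Or.inl (bd_of_sec hSCT hEUB G d (by omega) hs hi n t M N ht hN K htr D hD x S hx
            hev)

theorem pf_S1 (hSCT : T_SCT) (hFAC : T_FAC) (hNEG : T_NEG) (hSEL : T_SEL) (hELI : T_ELI)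
    (hCON : T_CON) (hPSJ : T_PSJ) (hUBL : T_UBL) (hEUB : T_EUB) : T_S1 := by
  intro k _ _ _ G d hd hs hi
  obtain ⟨n0, t0, M0, N0, ht0, hN0, hsec0⟩ := hNEG k G d hd hs hi
  obtain ⟨e0, he0, hb0⟩ := hsec0.2.1
  obtain ⟨s, hass, hs'⟩ := hFAC k e0 n0 N0 hN0 hsec0.1 hb0
  have hOk : Ok G d s.prod := Ok.prod s fun P hP => by
    obtain ⟨h1, h2, e', n', h3⟩ := hs' P hP
    exact ok_of_irreducible hSCT hSEL hELI hCON hPSJ hEUB G d hd hs hi P h1 h2 e' n' h3
  obtain ⟨B, cs, ps, h1, h2, h3, h4, h5⟩ := hOk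
  refine ⟨max n0 B, cs, ps, h1, h2, h3, h4, ?_⟩
  intro K _ _ _ htr D hD x S hx
  by_cases hev : evc D x N0 = 0
  · have hev' : evc D x s.prod = 0 := by
      obtain ⟨u, hu⟩ := hass
      rw [← hu, map_mul] at hev
      rcases mul_eq_zero.mp hev with h | h
      · exact h
      · exact absurd h ((u.isUnit.map (evc D x)).ne_zero)
    rcases h5 K htr D hD x S hx hev' with h | h | h
    · exact Or.inl (h.mono (le_max_right _ _)).2
    · exact Or.inr (Or.inl h)
    · exact Or.inr (Or.inr h)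
  · exact Or.inl ((bd_of_sec hSCT hEUB G d (by omega) hs hi n0 t0 M0 N0 ht0 hsec0 K htr D hD x S
      hx hev).mono (le_max_left _ _)).2

end Pool.Agent.H6.SM
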